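import Pool.Agent.Helper52.DE.Rep

/-!
# Bricks of projective dimension at most one (MP_7dd0aa_al)
-/

universe u

set_option autoImplicit false
set_option linter.unusedSectionVars false

namespace Pool.Agent.Helper52.DE

open Dem

variable {k A : Type u} [Field k] [Ring A] [Algebra k A]
variable {n : ℕ} {S : Fin n → FDMod k A}

/-- The endomorphism algebra of a brick. -/
theorem hd_brick [IsAlgClosed k] (M : FDMod k A) (hM : IsBrick A M) : hd k A M M = 1 := by
  haveI := hM.1
  have hid : (LinearMap.id : M →ₗ[A] M) ≠ 0 := by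
    intro h0
    obtain ⟨x, hx⟩ := exists_ne (0 : M)
    exact hx (LinearMap.congr_fun h0 x)
  unfold hd
  refine finrank_eq_one (LinearMap.id : M →ₗ[A] M) hid fun φ => ?_
  obtain ⟨c, hc⟩ := Module.End.exists_eigenvalue (φ.restrictScalars k)
  obtain ⟨x, hx⟩ := hc.exists_hasEigenvector
  refine ⟨c, ?_⟩
  by_contra hne
  have h1 : φ - c • (LinearMap.id : M →ₗ[A] M) ≠ 0 := by
    intro h0
    exact hne (sub_eq_zero.1 h0).symm
  have h2 := (hM.2 _ h1).1
  have h3 : (φ - c • (LinearMap.id : M →ₗ[A] M)) x = 0 := by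
    have := hx.apply_eq_smul
    rw [LinearMap.sub_apply, LinearMap.smul_apply, LinearMap.id_apply]
    exact sub_eq_zero.2 this
  exact hx.2 (h2 (by rw [h3, map_zero]))

theorem indec_brick (M : Type u) [AddCommGroup M] [Module A M] (hM : IsBrick A M) : Indec A M := by
  refine ⟨hM.1, fun p q hpq => ?_⟩
  by_contra hcon
  push Not at hcon
  obtain ⟨hp, hq⟩ := hcon
  obtain ⟨x, hx, hx0⟩ := (Submodule.ne_bot_iff p).1 hp
  obtain ⟨y, hy, hy0⟩ := (Submodule.ne_bot_iff q).1 hq
  let π : M →ₗ[A] M := p.subtype ∘ₗ Submodule.projectionOnto p q hpq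
  have h1 : π x = x := by
    show ((Submodule.projectionOnto p q hpq x : p) : M) = x
    have h0 : Submodule.projectionOnto p q hpq x = ⟨x, hx⟩ := Submodule.projectionOnto_apply_left hpq ⟨x, hx⟩
    rw [h0]
  have h2 : π y = 0 := by
    show ((Submodule.projectionOnto p q hpq y : p) : M) = 0
    have := (Submodule.projectionOnto_apply_eq_zero_iff hpq).2 hy
    rw [this]
    rfl
  have h3 : π ≠ 0 := by
    intro h0
    apply hx0
    rw [← h1, h0]
    rfl
  have h4 := (hM.2 π h3).1
  exact hy0 (h4 (by rw [h2, map_zero]))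

/-- Two indecomposable rigid complexes of the same class, the second one minimal, have isomorphic cokernels. -/
theorem iso_of_g [IsAlgClosed k] [Module.Finite k A] (hS : CompleteSimples S) {X Y : Pres k A}
    (hX : EZ X X.M) (hXi : Indec A X.M) (hY : EZ Y Y.M) (hYi : Indec A Y.M) (h : ∀ l, X.g S l = Y.g S l) :
    Nonempty (X.M ≃ₗ[A] Y.M) := by
  let Z : Unit → Pres k A := fun _ => Y
  let R : Empty → FDMod k A := fun e => e.elim
  have hrig : Rig Z R :=
    { indec := fun _ => hYi
      noniso := fun i j hij => absurd (Subsingleton.elim i j) hij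
      rigid := fun _ _ => hY
      projQ := fun e => e.elim
      indecQ := fun e => e.elim
      nonisoQ := fun e => e.elim
      homzero := fun _ e => e.elim }
  obtain ⟨i, -, e⟩ := hrig.mem_of_cone hS hX hXi (a := fun _ => (1 : ℝ)) (b := fun e => e.elim)
    (fun _ => zero_le_one) (fun e => e.elim) (fun l => by
      rw [h l]
      simp [Z])
  exact e

/-- There are only finitely many bricks among the modules for which the quadratic bound holds. -/
theorem finite_bricks [IsAlgClosed k] [Module.Finite k A] (hS : CompleteSimples S)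
    (hfan : ∀ v : Fin n → ℤ, InFan S (fun l => (v l : ℝ))) {c : ℝ} (hc : 0 < c) :
    ∃ L : List (FDMod k A), ∀ X : Pres k A, IsBrick A X.M →
      c * (Module.finrank k X.M : ℝ) ^ 2 + ed k X X.M ≤ hd k A X.M X.M →
      ∃ B ∈ L, Nonempty (X.M ≃ₗ[A] B) := by
  classical
  choose Q hQ hQS using exists_Q hS hfan
  obtain ⟨K, hK⟩ := g_bound hS hQ hQS
  obtain ⟨D, hD⟩ : ∃ D : ℕ, ∀ m : ℕ, c * (m : ℝ) ^ 2 ≤ 1 → m ≤ D := by
    obtain ⟨D, hD⟩ := exists_nat_gt (1 / c)
    refine ⟨D, fun m hm => ?_⟩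
    by_contra hlt
    push Not at hlt
    have h1 : (1 : ℝ) / c < m := hD.trans (by exact_mod_cast hlt)
    have h2 : (1 : ℝ) < m * c := (div_lt_iff₀ hc).1 h1
    have h3 : (1 : ℝ) ≤ m := by
      have : 1 ≤ m := by omega
      exact_mod_cast this
    nlinarith
  -- the finite set of classes
  let B : Finset (Fin n → ℤ) := Fintype.piFinset fun _ => Finset.Icc (-(K * D : ℤ)) (K * D)
  let P : (Fin n → ℤ) → Prop := fun y => ∃ Z : Pres k A, EZ Z Z.M ∧ Indec A Z.M ∧ ∀ l, Z.g S l = y l
  let ch : (Fin n → ℤ) → FDMod k A := fun y =>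
    if h : P y then FDMod.of k A h.choose.M else zeroMod k A
  refine ⟨B.toList.map ch, fun X hX hb => ?_⟩
  rw [hd_brick (FDMod.of k A X.M) hX] at hb
  have hed : EZ X X.M := by
    rw [← ed_eq_zero_iff (k := k)]
    by_contra hne
    have h1 : (1 : ℝ) ≤ ed k X X.M := by
      have : 1 ≤ ed k X X.M := Nat.one_le_iff_ne_zero.2 hne
      exact_mod_cast this
    haveI := hX.1
    have h2 : 0 < Module.finrank k X.M := Module.finrank_pos
    have h3 : 0 < c * (Module.finrank k X.M : ℝ) ^ 2 := by positivity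
    push_cast at hb
    linarith
  have hdim : Module.finrank k X.M ≤ D := by
    refine hD _ ?_
    have : (0 : ℝ) ≤ ed k X X.M := by positivity
    push_cast at hb
    linarith
  have hXi := indec_brick X.M hX
  obtain ⟨p, q, Y, R, hpair, a, b, ha, hb', hv⟩ := hfan (fun l => X.g S l)
  obtain ⟨i, -, ⟨e⟩⟩ := hpair.rig.mem_of_cone hS hed hXi ha hb' hv
  have hfr : Module.finrank k (Y i).M = Module.finrank k X.M :=
    (LinearEquiv.finrank_eq (e.restrictScalars k)).symm
  have hYK := hK (Y i) (hpair.minimal i)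
  rw [hfr] at hYK
  have hmem : (fun l => (Y i).g S l) ∈ B := by
    rw [Fintype.mem_piFinset]
    intro l
    have h1 : |((Y i).g S l : ℝ)| ≤ ∑ l, |((Y i).g S l : ℝ)| :=
      Finset.single_le_sum (f := fun l => |((Y i).g S l : ℝ)|) (fun _ _ => abs_nonneg _) (Finset.mem_univ l)
    have h2 : (K : ℝ) * (Module.finrank k X.M : ℝ) ≤ K * D := by
      refine mul_le_mul_of_nonneg_left ?_ (by positivity)
      exact_mod_cast hdim
    have h3 : |((Y i).g S l : ℝ)| ≤ ((K * D : ℤ) : ℝ) := by
      push_cast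
      linarith
    have h4 : |(Y i).g S l| ≤ (K * D : ℤ) := by exact_mod_cast h3
    rw [Finset.mem_Icc]
    exact abs_le.1 h4
  have hP : P (fun l => (Y i).g S l) := ⟨Y i, hpair.rig.rigid i i, hpair.rig.indec i, fun l => rfl⟩
  refine ⟨ch (fun l => (Y i).g S l), List.mem_map.2 ⟨_, Finset.mem_toList.2 hmem, rfl⟩, ?_⟩
  have hch : ch (fun l => (Y i).g S l) = FDMod.of k A hP.choose.M := dif_pos hP
  rw [hch]
  obtain ⟨hZ, hZi, hZg⟩ := hP.choose_spec
  obtain ⟨e'⟩ := iso_of_g hS (hpair.rig.rigid i i) (hpair.rig.indec i) hZ hZi (fun l => (hZg l).symm)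
  exact ⟨e.trans e'⟩

end Pool.Agent.Helper52.DE
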