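import Mathlib

/-!
# Support functions of finite sets of integral vectors and the quadratic function `q` (MP_7dd0aa_al)
-/

set_option autoImplicit false

namespace Pool.Agent.Helper52.DE

open Finset Filter Topology

variable {n : ℕ}

/-- the pairing of a real and an integral vector -/
def dt (v : Fin n → ℝ) (d : Fin n → ℤ) : ℝ := ∑ l, v l * (d l : ℝ)

/-- `h` is the support function of the finite set `F` -/
structure Supp (F : Finset (Fin n → ℤ)) (h : (Fin n → ℝ) → ℝ) : Prop where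
  le : ∀ v, ∀ d ∈ F, dt v d ≤ h v
  ex : ∀ v, ∃ d ∈ F, h v = dt v d

theorem dt_cont (d : Fin n → ℤ) : Continuous fun v : Fin n → ℝ => dt v d := by
  unfold dt
  fun_prop

theorem dt_smul (t : ℝ) (v : Fin n → ℝ) (d : Fin n → ℤ) : dt (fun l => t * v l) d = t * dt v d := by
  unfold dt
  rw [Finset.mul_sum]
  exact Finset.sum_congr rfl fun l _ => by ring

theorem exists_supp (F : Finset (Fin n → ℤ)) (hF : F.Nonempty) : ∃ h, Supp F h := by
  refine ⟨fun v => F.sup' hF fun d => dt v d, fun v d hd => ?_, fun v => ?_⟩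
  · exact Finset.le_sup' (fun d => dt v d) hd
  · obtain ⟨d, hd, e⟩ := Finset.exists_mem_eq_sup' hF fun d => dt v d
    exact ⟨d, hd, e⟩

namespace Supp

variable {F : Finset (Fin n → ℤ)} {h : (Fin n → ℝ) → ℝ} (H : Supp F h)

include H in
theorem nonempty : F.Nonempty := by
  obtain ⟨d, hd, -⟩ := H.ex 0
  exact ⟨d, hd⟩

include H in
theorem eq_sup (v : Fin n → ℝ) : h v = F.sup' H.nonempty fun d => dt v d := by
  refine le_antisymm ?_ ?_
  · obtain ⟨d, hd, e⟩ := H.ex v
    rw [e]
    exact Finset.le_sup' (fun d => dt v d) hd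
  · exact Finset.sup'_le _ _ fun d hd => H.le v d hd

include H in
theorem cont : Continuous h := by
  have e : h = fun v => F.sup' H.nonempty fun d => dt v d := funext H.eq_sup
  rw [e]
  exact Continuous.finset_sup'_apply _ fun d _ => dt_cont d

include H in
theorem smul {t : ℝ} (ht : 0 ≤ t) (v : Fin n → ℝ) : h (fun l => t * v l) = t * h v := by
  refine le_antisymm ?_ ?_
  · obtain ⟨d, hd, e⟩ := H.ex fun l => t * v l
    rw [e, dt_smul]
    exact mul_le_mul_of_nonneg_left (H.le v d hd) ht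
  · obtain ⟨d, hd, e⟩ := H.ex v
    rw [e, ← dt_smul]
    exact H.le _ d hd

end Supp

/-- the quadratic function -/
def qf (h : Fin n → (Fin n → ℝ) → ℝ) (v : Fin n → ℝ) : ℝ := ∑ l, v l * h l v

section

variable {F : Fin n → Finset (Fin n → ℤ)} {h : Fin n → (Fin n → ℝ) → ℝ} (H : ∀ l, Supp (F l) (h l))

include H in
theorem qf_cont : Continuous (qf h) := by
  unfold qf
  exact continuous_finsetSum _ fun l _ => (continuous_apply l).mul (H l).cont

include H in
theorem qf_smul {t : ℝ} (ht : 0 ≤ t) (v : Fin n → ℝ) : qf h (fun l => t * v l) = t ^ 2 * qf h v := by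
  unfold qf
  rw [Finset.mul_sum]
  refine Finset.sum_congr rfl fun l _ => ?_
  rw [(H l).smul ht]
  ring

include H in
theorem rat_version (hq : ∀ x : Fin n → ℤ, 0 ≤ qf h (fun l => (x l : ℝ)) ∧
    (qf h (fun l => (x l : ℝ)) = 0 → ∀ l, x l ≤ 0)) (w : Fin n → ℚ) :
    0 ≤ qf h (fun l => (w l : ℝ)) ∧ (qf h (fun l => (w l : ℝ)) = 0 → ∀ l, w l ≤ 0) := by
  classical
  obtain ⟨N, hN, x, hx⟩ : ∃ N : ℕ, 0 < N ∧ ∃ x : Fin n → ℤ, ∀ l, (x l : ℚ) = N * w l := by
    refine ⟨∏ l, (w l).den, Finset.prod_pos fun l _ => (w l).den_pos, ?_⟩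
    have h1 : ∀ l, ∃ z : ℤ, (z : ℚ) = ((∏ l, (w l).den : ℕ) : ℚ) * w l := by
      intro l
      obtain ⟨m, hm⟩ := Finset.dvd_prod_of_mem (fun l => (w l).den) (Finset.mem_univ l)
      refine ⟨m * (w l).num, ?_⟩
      rw [hm]
      push_cast
      have h2 : ((w l).den : ℚ) * w l = (w l).num := by
        rw [mul_comm]
        exact Rat.mul_den_eq_num (w l)
      rw [mul_comm ((w l).den : ℚ) (m : ℚ), mul_assoc, h2]
    choose x hx using h1
    exact ⟨x, hx⟩
  have hN' : (0 : ℝ) < N := by exact_mod_cast hN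
  have e : (fun l => (x l : ℝ)) = fun l => (N : ℝ) * (w l : ℝ) := by
    funext l
    have := congrArg (fun z : ℚ => (z : ℝ)) (hx l)
    push_cast at this
    exact this
  obtain ⟨h1, h2⟩ := hq x
  rw [e, qf_smul H hN'.le] at h1 h2
  have hN2 : (0 : ℝ) < (N : ℝ) ^ 2 := by positivity
  refine ⟨?_, fun h0 l => ?_⟩
  · by_contra hlt
    push Not at hlt
    have := mul_neg_of_pos_of_neg hN2 hlt
    linarith
  · have h3 := h2 (by rw [h0, mul_zero]) l
    have h4 : (N : ℚ) * w l ≤ 0 := by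
      rw [← hx l]
      exact_mod_cast h3
    have hN3 : (0 : ℚ) < N := by exact_mod_cast hN
    by_contra hlt
    push Not at hlt
    have := mul_pos hN3 hlt
    linarith

end

/-- a rational quadratic form -/
def Phi {r : ℕ} (C : Fin r → Fin r → ℚ) (β γ : Fin r → ℝ) : ℝ :=
  ∑ k, ∑ k', (C k k' : ℝ) * β k * γ k'

section

variable {r : ℕ} (C : Fin r → Fin r → ℚ)

theorem Phi_cont : Continuous fun β : Fin r → ℝ => Phi C β β := by
  unfold Phi
  fun_prop

theorem Phi_expand (β γ : Fin r → ℝ) (t : ℝ) : Phi C (β + t • γ) (β + t • γ) =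
    Phi C β β + t * (Phi C β γ + Phi C γ β) + t ^ 2 * Phi C γ γ := by
  unfold Phi
  rw [← Finset.sum_add_distrib, Finset.mul_sum, Finset.mul_sum, ← Finset.sum_add_distrib,
    ← Finset.sum_add_distrib]
  refine Finset.sum_congr rfl fun k _ => ?_
  rw [← Finset.sum_add_distrib, Finset.mul_sum, Finset.mul_sum, ← Finset.sum_add_distrib,
    ← Finset.sum_add_distrib]
  refine Finset.sum_congr rfl fun k' _ => ?_
  simp only [Pi.add_apply, Pi.smul_apply, smul_eq_mul]
  ring

/-- a local minimum with value zero whose coordinates are independent over `ℚ` forces the form to vanish -/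
theorem Phi_zero (bb : Fin r → ℝ) (hind : ∀ c : Fin r → ℚ, ∑ k, (c k : ℝ) * bb k = 0 → ∀ k, c k = 0)
    (h0 : Phi C bb bb ≤ 0) (hpos : ∀ᶠ β in 𝓝 bb, 0 ≤ Phi C β β) (β : Fin r → ℝ) : Phi C β β = 0 := by
  classical
  have hgrad : ∀ γ : Fin r → ℝ, Phi C bb γ + Phi C γ bb = 0 := by
    intro γ
    have hc : Continuous fun t : ℝ => bb + t • γ := by fun_prop
    have h1 : Tendsto (fun t : ℝ => bb + t • γ) (𝓝 0) (𝓝 bb) := by
      have := hc.tendsto 0
      simpa using this
    have h2 := h1.eventually hpos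
    have hmin : IsLocalMin (fun t : ℝ => Phi C bb bb + t * (Phi C bb γ + Phi C γ bb) + t ^ 2 * Phi C γ γ) 0 := by
      filter_upwards [h2] with t ht
      rw [Phi_expand] at ht
      have e0 : Phi C bb bb + 0 * (Phi C bb γ + Phi C γ bb) + 0 ^ 2 * Phi C γ γ = Phi C bb bb := by ring
      rw [e0]
      linarith
    have hder : HasDerivAt (fun t : ℝ => Phi C bb bb + t * (Phi C bb γ + Phi C γ bb) + t ^ 2 * Phi C γ γ)
        (Phi C bb γ + Phi C γ bb) 0 := by
      have h3 := ((hasDerivAt_id (0 : ℝ)).mul_const (Phi C bb γ + Phi C γ bb)).const_add (Phi C bb bb)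
      have h4 := ((hasDerivAt_pow 2 (0 : ℝ)).mul_const (Phi C γ γ))
      have h5 := h3.add h4
      have e5 : (1 : ℝ) * (Phi C bb γ + Phi C γ bb) + ((2 : ℕ) : ℝ) * 0 ^ (2 - 1) * Phi C γ γ
          = Phi C bb γ + Phi C γ bb := by
        norm_num
      rw [e5] at h5
      exact h5
    exact hmin.hasDerivAt_eq_zero hder
  have hC : ∀ j k, C k j + C j k = 0 := by
    intro j
    refine hind (fun k => C k j + C j k) ?_
    have h1 := hgrad (Pi.single j 1)
    have e1 : Phi C bb (Pi.single j 1) = ∑ k, (C k j : ℝ) * bb k := by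
      unfold Phi
      refine Finset.sum_congr rfl fun k _ => ?_
      rw [Finset.sum_eq_single j]
      · simp
      · intro k' _ hne
        rw [Pi.single_eq_of_ne hne, mul_zero]
      · intro hj
        exact absurd (Finset.mem_univ j) hj
    have e2 : Phi C (Pi.single j 1) bb = ∑ k, (C j k : ℝ) * bb k := by
      unfold Phi
      rw [Finset.sum_eq_single j]
      · refine Finset.sum_congr rfl fun k _ => ?_
        simp
      · intro k' _ hne
        refine Finset.sum_eq_zero fun k _ => ?_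
        rw [Pi.single_eq_of_ne hne, mul_zero, zero_mul]
      · intro hj
        exact absurd (Finset.mem_univ j) hj
    rw [e1, e2, ← Finset.sum_add_distrib] at h1
    rw [← h1]
    refine Finset.sum_congr rfl fun k _ => ?_
    push_cast
    ring
  have h2 : Phi C β β + Phi C β β = 0 := by
    have e1 : Phi C β β = ∑ k, ∑ k', (C k' k : ℝ) * β k * β k' := by
      unfold Phi
      rw [Finset.sum_comm]
      exact Finset.sum_congr rfl fun k _ => Finset.sum_congr rfl fun k' _ => by ring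
    have e2 : Phi C β β = ∑ k, ∑ k', (C k k' : ℝ) * β k * β k' := rfl
    calc Phi C β β + Phi C β β = ∑ k, ∑ k', (C k' k : ℝ) * β k * β k' + ∑ k, ∑ k', (C k k' : ℝ) * β k * β k' := by
          rw [← e1, ← e2]
      _ = 0 := ?_
    rw [← Finset.sum_add_distrib]
    refine Finset.sum_eq_zero fun k _ => ?_
    rw [← Finset.sum_add_distrib]
    refine Finset.sum_eq_zero fun k' _ => ?_
    have h3 : ((C k' k + C k k' : ℚ) : ℝ) = 0 := by
      rw [hC k k']
      simp
    push_cast at h3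
    linear_combination (β k * β k') * h3
  linarith

end

section

variable {F : Fin n → Finset (Fin n → ℤ)} {h : Fin n → (Fin n → ℝ) → ℝ} (H : ∀ l, Supp (F l) (h l))

include H in
/-- If `q` is nonnegative at all integral vectors and positive at those which have a positive coordinate then it is
positive at all real vectors which have a positive coordinate. -/
theorem neg_of_q (hq : ∀ x : Fin n → ℤ, 0 ≤ qf h (fun l => (x l : ℝ)) ∧
    (qf h (fun l => (x l : ℝ)) = 0 → ∀ l, x l ≤ 0)) (z : Fin n → ℝ) (hz : qf h z ≤ 0) : ∀ l, z l ≤ 0 := by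
  classical
  have hQ := rat_version H hq
  let V : Submodule ℚ ℝ := Submodule.span ℚ (Set.range z)
  have : FiniteDimensional ℚ V := FiniteDimensional.span_of_finite ℚ (Set.finite_range z)
  let b := Module.finBasis ℚ V
  let bb : Fin (Module.finrank ℚ V) → ℝ := fun k => (b k : ℝ)
  have hzV : ∀ l, z l ∈ V := fun l => Submodule.subset_span ⟨l, rfl⟩
  let vv : Fin n → Fin (Module.finrank ℚ V) → ℚ := fun l k => b.repr ⟨z l, hzV l⟩ k
  have hsum : ∀ c : Fin (Module.finrank ℚ V) → ℚ, ((∑ k, c k • b k : V) : ℝ) = ∑ k, (c k : ℝ) * bb k := by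
    intro c
    rw [AddSubmonoidClass.coe_finsetSum]
    refine Finset.sum_congr rfl fun k _ => ?_
    rw [Submodule.coe_smul, Rat.smul_def]
  have hzb : ∀ l, z l = ∑ k, (vv l k : ℝ) * bb k := by
    intro l
    rw [← hsum, b.sum_repr]
  have hind : ∀ c : Fin (Module.finrank ℚ V) → ℚ, ∑ k, (c k : ℝ) * bb k = 0 → ∀ k, c k = 0 := by
    intro c hc
    have h1 : ∑ k, c k • b k = 0 := by
      apply Subtype.ext
      rw [hsum, hc]
      rfl
    exact Fintype.linearIndependent_iff.1 b.linearIndependent c h1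
  let x : (Fin (Module.finrank ℚ V) → ℝ) → Fin n → ℝ := fun β l => ∑ k, (vv l k : ℝ) * β k
  have hx : x bb = z := funext fun l => (hzb l).symm
  have hxc : Continuous x := by
    refine continuous_pi fun l => ?_
    show Continuous fun β : Fin (Module.finrank ℚ V) → ℝ => ∑ k, (vv l k : ℝ) * β k
    fun_prop
  let cc : (Fin n → ℤ) → Fin (Module.finrank ℚ V) → ℚ := fun e k => ∑ l, vv l k * (e l : ℚ)
  have hdt : ∀ γ e, dt (x γ) e = ∑ k, (cc e k : ℝ) * γ k := by
    intro γ e
    show ∑ l, (∑ k, (vv l k : ℝ) * γ k) * (e l : ℝ) = ∑ k, ((∑ l, vv l k * (e l : ℚ) : ℚ) : ℝ) * γ k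
    push_cast
    simp only [Finset.sum_mul]
    rw [Finset.sum_comm]
    exact Finset.sum_congr rfl fun k _ => Finset.sum_congr rfl fun l _ => by ring
  choose d hd hdz using fun l => (H l).ex z
  have hnear : ∀ᶠ β in 𝓝 bb, ∀ l, h l (x β) = dt (x β) (d l) := by
    rw [Filter.eventually_all]
    intro l
    have h1 : ∀ᶠ β in 𝓝 bb, ∀ d' ∈ F l, dt (x β) d' ≤ dt (x β) (d l) := by
      rw [Filter.eventually_all_finset]
      intro d' hd'
      have h2 : dt z d' ≤ dt z (d l) := by
        rw [← hdz l]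
        exact (H l).le z d' hd'
      rcases h2.lt_or_eq with h3 | h3
      · have c1 : Continuous fun β => dt (x β) d' := (dt_cont d').comp hxc
        have c2 : Continuous fun β => dt (x β) (d l) := (dt_cont (d l)).comp hxc
        have h4 := c1.continuousAt.eventually_lt (x₀ := bb) c2.continuousAt (by rw [hx]; exact h3)
        exact h4.mono fun β h => h.le
      · refine Filter.Eventually.of_forall fun β => le_of_eq ?_
        have h4 : ∀ k, cc d' k - cc (d l) k = 0 := by
          refine hind (fun k => cc d' k - cc (d l) k) ?_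
          rw [← hx, hdt, hdt] at h3
          push_cast
          simp only [sub_mul, Finset.sum_sub_distrib]
          rw [h3, sub_self]
        rw [hdt, hdt]
        exact Finset.sum_congr rfl fun k _ => by rw [sub_eq_zero.1 (h4 k)]
    filter_upwards [h1] with β hβ
    obtain ⟨d', hd', e⟩ := (H l).ex (x β)
    refine le_antisymm ?_ ((H l).le _ _ (hd l))
    rw [e]
    exact hβ d' hd'
  let C : Fin (Module.finrank ℚ V) → Fin (Module.finrank ℚ V) → ℚ := fun k k' => ∑ l, vv l k * cc (d l) k'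
  have hPhi : ∀ β, ∑ l, x β l * dt (x β) (d l) = Phi C β β := by
    intro β
    show ∑ l, x β l * dt (x β) (d l) = ∑ k, ∑ k', ((∑ l, vv l k * cc (d l) k' : ℚ) : ℝ) * β k * β k'
    push_cast
    simp only [Finset.sum_mul]
    have e1 : ∀ l, x β l * dt (x β) (d l) = ∑ k, ∑ k', (vv l k : ℝ) * (cc (d l) k' : ℝ) * β k * β k' := by
      intro l
      rw [hdt]
      show (∑ k, (vv l k : ℝ) * β k) * _ = _
      rw [Finset.sum_mul_sum]
      exact Finset.sum_congr rfl fun k _ => Finset.sum_congr rfl fun k' _ => by ring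
    rw [Finset.sum_congr rfl fun l _ => e1 l, Finset.sum_comm]
    exact Finset.sum_congr rfl fun k _ => Finset.sum_comm
  obtain ⟨U, hU, hUo, hbU⟩ := eventually_nhds_iff.1 hnear
  have hqU : ∀ β ∈ U, qf h (x β) = Phi C β β := by
    intro β hβ
    rw [← hPhi]
    exact Finset.sum_congr rfl fun l _ => by rw [hU β hβ l]
  -- rational points
  let D : Set (Fin (Module.finrank ℚ V) → ℝ) := Set.range fun (w : Fin (Module.finrank ℚ V) → ℚ) k => (w k : ℝ)
  have hD : Dense D := DenseRange.piMap (fun _ => Rat.denseRange_cast)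
  have hcl : U ⊆ closure (U ∩ D) := hD.open_subset_closure_inter hUo
  have hxr : ∀ w : Fin (Module.finrank ℚ V) → ℚ, x (fun k => (w k : ℝ)) = fun l => ((∑ k, vv l k * w k : ℚ) : ℝ) := by
    intro w
    funext l
    show ∑ k, (vv l k : ℝ) * (w k : ℝ) = _
    push_cast
    rfl
  have hpos : ∀ β ∈ U, 0 ≤ Phi C β β := by
    have hclosed : IsClosed {β : Fin (Module.finrank ℚ V) → ℝ | 0 ≤ Phi C β β} :=
      isClosed_le continuous_const (Phi_cont C)
    have hsub : U ∩ D ⊆ {β | 0 ≤ Phi C β β} := by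
      rintro _ ⟨hβ, w, rfl⟩
      show 0 ≤ Phi C _ _
      rw [← hqU _ hβ, hxr]
      exact (hQ _).1
    intro β hβ
    exact closure_minimal hsub hclosed (hcl hβ)
  have hzero := Phi_zero C bb hind (by rw [← hqU bb hbU, hx]; exact hz)
    (Filter.eventually_of_mem (hUo.mem_nhds hbU) hpos)
  intro l
  have hclosed : IsClosed {β : Fin (Module.finrank ℚ V) → ℝ | x β l ≤ 0} :=
    isClosed_le ((continuous_apply l).comp hxc) continuous_const
  have hsub : U ∩ D ⊆ {β | x β l ≤ 0} := by
    rintro _ ⟨hβ, w, rfl⟩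
    show x _ l ≤ 0
    have h1 := hqU _ hβ
    rw [hzero, hxr] at h1
    have h2 := (hQ _).2 h1 l
    rw [hxr]
    show ((∑ k, vv l k * w k : ℚ) : ℝ) ≤ 0
    exact_mod_cast h2
  have := closure_minimal hsub hclosed (hcl hbU)
  have h3 : x bb l ≤ 0 := this
  rwa [hx] at h3

include H in
/-- compactness -/
theorem compact_bound (hq : ∀ x : Fin n → ℤ, 0 ≤ qf h (fun l => (x l : ℝ)) ∧
    (qf h (fun l => (x l : ℝ)) = 0 → ∀ l, x l ≤ 0)) (hF : ∀ l, ∀ d ∈ F l, ∀ m, 0 ≤ d m)
    (σ : Fin n → ℝ) (hσ : ∀ l, 0 ≤ σ l) (K : ℝ) (hK : 0 ≤ K) :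
    ∃ c : ℝ, 0 < c ∧ ∀ v : Fin n → ℝ, ∑ l, |v l| ≤ K * ∑ l, σ l * h l v →
      c * (∑ l, |v l|) ^ 2 ≤ qf h v := by
  classical
  let S : Set (Fin n → ℝ) := {v | ∑ l, |v l| = 1 ∧ 1 ≤ K * ∑ l, σ l * h l v}
  have hScl : IsClosed S := by
    have c1 : Continuous fun v : Fin n → ℝ => ∑ l, |v l| := by fun_prop
    have c2 : Continuous fun v : Fin n → ℝ => K * ∑ l, σ l * h l v :=
      continuous_const.mul (continuous_finsetSum _ fun l _ => continuous_const.mul (H l).cont)
    exact (isClosed_eq c1 continuous_const).inter (isClosed_le continuous_const c2)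
  have hScpt : IsCompact S := by
    refine (isCompact_closedBall (0 : Fin n → ℝ) 1).of_isClosed_subset hScl fun v hv => ?_
    rw [mem_closedBall_zero_iff, pi_norm_le_iff_of_nonneg zero_le_one]
    intro l
    rw [Real.norm_eq_abs, ← hv.1]
    exact Finset.single_le_sum (f := fun l => |v l|) (fun l _ => abs_nonneg _) (Finset.mem_univ l)
  have hpos : ∀ v ∈ S, 0 < qf h v := by
    intro v hv
    by_contra hle
    push Not at hle
    have h1 := neg_of_q H hq v hle
    have h2 : ∀ l, h l v ≤ 0 := by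
      intro l
      obtain ⟨d, hd, e⟩ := (H l).ex v
      rw [e]
      exact Finset.sum_nonpos fun m _ =>
        mul_nonpos_of_nonpos_of_nonneg (h1 m) (by exact_mod_cast hF l d hd m)
    have h3 : ∑ l, σ l * h l v ≤ 0 := Finset.sum_nonpos fun l _ =>
      mul_nonpos_of_nonneg_of_nonpos (hσ l) (h2 l)
    have h4 : K * ∑ l, σ l * h l v ≤ 0 := mul_nonpos_of_nonneg_of_nonpos hK h3
    have := hv.2
    linarith
  have hnorm : ∀ v : Fin n → ℝ, ∑ l, |v l| ≤ K * ∑ l, σ l * h l v → 0 < ∑ l, |v l| →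
      (fun l => (∑ l, |v l|)⁻¹ * v l) ∈ S := by
    intro v hv hv0
    have hi : 0 < (∑ l, |v l|)⁻¹ := inv_pos.2 hv0
    refine ⟨?_, ?_⟩
    · simp only [abs_mul, abs_of_pos hi]
      rw [← Finset.mul_sum, inv_mul_cancel₀ hv0.ne']
    · have e1 : ∑ l, σ l * h l (fun l => (∑ l, |v l|)⁻¹ * v l) = (∑ l, |v l|)⁻¹ * ∑ l, σ l * h l v := by
        rw [Finset.mul_sum]
        refine Finset.sum_congr rfl fun l _ => ?_
        rw [(H l).smul hi.le]
        ring
      rw [e1]
      have h1 := mul_le_mul_of_nonneg_left hv hi.le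
      rw [inv_mul_cancel₀ hv0.ne'] at h1
      linarith
  have hzero : ∀ v : Fin n → ℝ, ¬ 0 < ∑ l, |v l| → qf h v = 0 ∧ ∑ l, |v l| = 0 := by
    intro v hv
    have h0 : ∑ l, |v l| = 0 := le_antisymm (not_lt.1 hv) (Finset.sum_nonneg fun l _ => abs_nonneg _)
    refine ⟨?_, h0⟩
    have h1 := (Finset.sum_eq_zero_iff_of_nonneg fun l _ => abs_nonneg (v l)).1 h0
    exact Finset.sum_eq_zero fun l _ => by rw [abs_eq_zero.1 (h1 l (Finset.mem_univ l)), zero_mul]
  rcases S.eq_empty_or_nonempty with hSe | hSne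
  · refine ⟨1, one_pos, fun v hv => ?_⟩
    by_cases hv0 : 0 < ∑ l, |v l|
    · have := hnorm v hv hv0
      rw [hSe] at this
      exact absurd this (Set.notMem_empty _)
    · obtain ⟨e1, e2⟩ := hzero v hv0
      rw [e1, e2]
      norm_num
  · obtain ⟨v0, hv0S, hmin⟩ := hScpt.exists_isMinOn hSne (qf_cont H).continuousOn
    refine ⟨qf h v0, hpos v0 hv0S, fun v hv => ?_⟩
    by_cases hv0 : 0 < ∑ l, |v l|
    · have h1 := hmin (hnorm v hv hv0)
      have h2 : qf h v0 ≤ qf h (fun l => (∑ l, |v l|)⁻¹ * v l) := h1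
      rw [qf_smul H (inv_pos.2 hv0).le] at h2
      have h3 := mul_le_mul_of_nonneg_left h2 (sq_nonneg (∑ l, |v l|))
      have e3 : (∑ l, |v l|) ^ 2 * (((∑ l, |v l|)⁻¹) ^ 2 * qf h v) = qf h v := by
        rw [← mul_assoc, ← mul_pow, mul_inv_cancel₀ hv0.ne', one_pow, one_mul]
      rw [e3] at h3
      linarith
    · obtain ⟨e1, e2⟩ := hzero v hv0
      rw [e1, e2]
      norm_num

end

end Pool.Agent.Helper52.DE
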