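import Pool.Agent.Helper52.DE.Quad
import Pool.Agent.Helper7.Dem.Sum

/-!
# Endomorphism algebras of rigid modules when all rational points lie in the fan (MP_7dd0aa_al)
-/

universe u

set_option autoImplicit false
set_option linter.unusedSectionVars false

namespace Pool.Agent.Helper52.DE

open Dem

variable {k A : Type u} [Field k] [Ring A] [Algebra k A]
variable {n : ℕ} {S : Fin n → FDMod k A}

/-- The indecomposable projectives. -/
theorem exists_Q [IsAlgClosed k] [Module.Finite k A] (hS : CompleteSimples S)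
    (hfan : ∀ v : Fin n → ℤ, InFan S (fun l => (v l : ℝ))) (l : Fin n) :
    ∃ Q : FDMod k A, Module.Projective A Q ∧ ∀ m, hd k A Q (S m) = if m = l then 1 else 0 := by
  classical
  obtain ⟨p, q, X, Q, hpair, c, hc, hv⟩ := fan_integral hS (fun m => if m = l then -1 else 0) (hfan _)
  have hrig := hpair.rig
  -- the coordinate `l`
  have hl : ∑ s, c s * Gv X Q S s l = -1 := by
    rw [← hv l]
    simp
  obtain ⟨s0, hs0⟩ : ∃ s, c s * Gv X Q S s l < 0 := by
    by_contra hcon
    push Not at hcon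
    have := Finset.sum_nonneg (s := Finset.univ) fun s _ => hcon s
    omega
  have hneg : ∀ s, Gv X Q S s l ≤ 0 := by
    intro s
    by_contra hpos
    push Not at hpos
    have h1 := hrig.sign' hS s l hpos s0
    have h2 := mul_nonneg (hc s0) h1
    omega
  have hother : ∀ m, m ≠ l → ∀ s, c s * Gv X Q S s m = 0 := by
    intro m hm s
    have hsum : ∑ s, c s * Gv X Q S s m = 0 := by
      rw [← hv m, if_neg hm]
    by_cases hex : ∃ t, 0 < Gv X Q S t m
    · obtain ⟨t, ht⟩ := hex
      have h1 := hrig.sign' hS t m ht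
      exact (Finset.sum_eq_zero_iff_of_nonneg fun s _ => mul_nonneg (hc s) (h1 s)).1 hsum s
        (Finset.mem_univ s)
    · push Not at hex
      exact (Finset.sum_eq_zero_iff_of_nonpos fun s _ =>
        mul_nonpos_of_nonneg_of_nonpos (hc s) (hex s)).1 hsum s (Finset.mem_univ s)
  rcases s0 with i | j
  · exfalso
    have hci : c (Sum.inl i) ≠ 0 := by
      intro h0
      rw [h0, zero_mul] at hs0
      exact lt_irrefl _ hs0
    haveI := (hrig.indec i).1
    obtain ⟨m, φ, hφ⟩ := exists_map_simple hS (FDMod.of k A (X i).M)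
    have h1 : EZ (X i) (S m) := EZ_of_surj (N := (X i).M) φ hφ (hrig.rigid i i)
    have h2 : chi k (X i) (S m) = hd k A (X i).M (S m) := chi_of_EZ (k := k) _ h1
    have h3 : hd k A (X i).M (S m) ≠ 0 := by
      intro h0
      have h4 := (hd_eq_zero_iff (k := k)).1 h0 φ
      haveI := (hS.simple m).nontrivial
      obtain ⟨y, hy⟩ := exists_ne (0 : S m)
      obtain ⟨x, rfl⟩ := hφ y
      exact hy (by rw [h4]; rfl)
    have h4 : (0 : ℤ) < Gv X Q S (Sum.inl i) m := by
      rw [Gv_inl]
      show 0 < chi k (X i) (S m)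
      omega
    by_cases hm : m = l
    · subst hm
      have := hneg (Sum.inl i)
      omega
    · rcases mul_eq_zero.1 (hother m hm (Sum.inl i)) with h | h
      · exact hci h
      · omega
  · have hcj : c (Sum.inr j) ≠ 0 := by
      intro h0
      rw [h0, zero_mul] at hs0
      exact lt_irrefl _ hs0
    refine ⟨Q j, hrig.projQ j, fun m => ?_⟩
    by_cases hm : m = l
    · subst hm
      rw [if_pos rfl]
      have h1 : ∀ s, c s * Gv X Q S s m ≤ 0 := fun s => mul_nonpos_of_nonneg_of_nonpos (hc s) (hneg s)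
      have h2 : (-1 : ℤ) ≤ c (Sum.inr j) * Gv X Q S (Sum.inr j) m := by
        rw [← hl]
        have h3 := Finset.sum_le_sum_of_subset_of_nonneg (f := fun s => - (c s * Gv X Q S s m))
          (Finset.subset_univ {Sum.inr j}) fun s _ _ => neg_nonneg.2 (h1 s)
        rw [Finset.sum_singleton, Finset.sum_neg_distrib] at h3
        omega
      rw [Gv_inr] at h2 hs0
      have hcp : 1 ≤ c (Sum.inr j) := by
        have := hc (Sum.inr j)
        omega
      have h3 : (0 : ℤ) < hd k A (Q j) (S m) := by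
        by_contra hle
        push Not at hle
        have h4 : ((hd k A (Q j) (S m) : ℕ) : ℤ) = 0 := le_antisymm hle (by positivity)
        rw [h4] at hs0
        simp at hs0
      have h4 : (hd k A (Q j) (S m) : ℤ) ≤ 1 := by nlinarith
      omega
    · rw [if_neg hm]
      rcases mul_eq_zero.1 (hother m hm (Sum.inr j)) with h | h
      · exact absurd h hcj
      · rw [Gv_inr] at h
        omega

section

variable [Module.Finite k A] (hS : CompleteSimples S) {Q : Fin n → FDMod k A}
  (hQ : ∀ l, Module.Projective A (Q l)) (hQS : ∀ l m, hd k A (Q l) (S m) = if m = l then 1 else 0)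

include hQ hQS in
theorem hd_Q (N : FDMod k A) (l : Fin n) : hd k A (Q l) N = dv hS N l := by
  classical
  rw [hd_eq_sum hS N (Q l) (hQ l)]
  simp only [hQS, ite_mul, one_mul, zero_mul, Finset.sum_ite_eq', Finset.mem_univ, if_true]

theorem ed_shift (R : FDMod k A) (hR : Module.Projective A R) (N : Type u) [AddCommGroup N] [Module k N]
    [Module A N] [IsScalarTower k A N] [Module.Finite k N] : ed k (shift R hR) N = hd k A R N := by
  have h1 := chi_eq (k := k) (N := N) (shift R hR)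
  rw [chi_shift] at h1
  have h2 : hd k A (shift R hR).M N = 0 := by
    rw [hd_eq_zero_iff]
    intro φ
    have : Subsingleton (shift R hR).M := by
      have : Subsingleton (shift R hR).P0 := inferInstanceAs (Subsingleton PUnit)
      exact (Submodule.mkQ_surjective _).subsingleton
    refine LinearMap.ext fun x => ?_
    rw [Subsingleton.elim x 0, map_zero, map_zero]
  rw [h2] at h1
  omega

/-- the indecomposable injectives -/
abbrev Ij (hQ : ∀ l, Module.Projective A (Q l)) (l : Fin n) : FDMod k A :=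
  FDMod.of k A (shift (Q l) (hQ l)).Tau

include hQS in
theorem hd_Ij (N : FDMod k A) (l : Fin n) : hd k A N (Ij hQ l) = dv hS N l := by
  show hd k A N (shift (Q l) (hQ l)).Tau = _
  rw [hd_Tau, ed_shift, hd_Q hS hQ hQS]

/-- the dimension vectors of the submodules -/
def sd (hS : CompleteSimples S) (N : FDMod k A) : Set (Fin n → ℤ) :=
  Set.range fun (L : Submodule A N) (l : Fin n) => (dv hS (FDMod.of k A L) l : ℤ)

include hQ hQS in
theorem sd_finite (N : FDMod k A) : (sd hS N).Finite := by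
  refine (Set.finite_Icc (0 : Fin n → ℤ) (fun l => (dv hS N l : ℤ))).subset ?_
  rintro _ ⟨L, rfl⟩
  refine ⟨fun l => ?_, fun l => ?_⟩
  · show (0 : ℤ) ≤ (dv hS (FDMod.of k A L) l : ℤ)
    positivity
  · show (dv hS (FDMod.of k A L) l : ℤ) ≤ (dv hS N l : ℤ)
    rw [← hd_Q hS hQ hQS, ← hd_Q hS hQ hQS]
    have := hd_le_of_inj (k := k) (P := Q l) L.subtype Subtype.val_injective
    exact_mod_cast this

/-- pairing with the dimension vector of a submodule -/
theorem dt_chi (U : Pres k A) (N : FDMod k A) :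
    dt (fun l => (U.g S l : ℝ)) (fun l => (dv hS N l : ℤ)) = (chi k U N : ℝ) := by
  rw [chi_eq_sum hS N U]
  unfold dt
  push_cast
  rfl

/-- The support function of the submodules of `N` at the class of a complex. -/
theorem supp_le {N : FDMod k A} {F : Finset (Fin n → ℤ)} (hF : (F : Set (Fin n → ℤ)) = sd hS N)
    {h : (Fin n → ℝ) → ℝ} (H : Supp F h) (X : Pres k A) :
    h (fun l => (X.g S l : ℝ)) ≤ hd k A X.M N := by
  obtain ⟨d, hd', e⟩ := H.ex fun l => (X.g S l : ℝ)
  rw [e]
  have h1 : d ∈ sd hS N := by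
    rw [← hF]
    exact hd'
  obtain ⟨L, rfl⟩ := h1
  have h2 := dt_chi hS X (FDMod.of k A L)
  rw [h2]
  have h3 := chi_le_hd (k := k) (N := L) X
  have h4 : hd k A X.M L ≤ hd k A X.M N := hd_le_of_inj L.subtype Subtype.val_injective
  have h5 : chi k X L ≤ hd k A X.M N := by omega
  exact_mod_cast h5

theorem supp_rigid {N : FDMod k A} {F : Finset (Fin n → ℤ)} (hF : (F : Set (Fin n → ℤ)) = sd hS N)
    {h : (Fin n → ℝ) → ℝ} (H : Supp F h) {U : Pres k A} (hU : EZ U U.M) :
    h (fun l => (U.g S l : ℝ)) = hd k A U.M N := by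
  refine le_antisymm (supp_le hS hF H U) ?_
  have h1 := hd_eq_chi_tz (k := k) (N := N) hU
  have h2 := dt_chi hS U (FDMod.of k A (tz U N))
  have h3 : (fun l => (dv hS (FDMod.of k A (tz U N)) l : ℤ)) ∈ F := by
    have : (fun l => (dv hS (FDMod.of k A (tz U N)) l : ℤ)) ∈ (F : Set (Fin n → ℤ)) := by
      rw [hF]
      exact ⟨tz U N, rfl⟩
    exact this
  have h4 := H.le (fun l => (U.g S l : ℝ)) _ h3
  rw [h2] at h4
  have h5 : ((hd k A U.M N : ℕ) : ℝ) = (chi k U (tz U N) : ℝ) := by exact_mod_cast h1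
  rw [h5]
  exact h4

/-- the value of the support function on a cone of the fan -/
theorem supp_cone {ι κ : Type} {X : ι → Pres k A} {R : κ → FDMod k A} [Fintype ι] [Fintype κ]
    (hR : Rig X R) {N : FDMod k A} {F : Finset (Fin n → ℤ)} (hF : (F : Set (Fin n → ℤ)) = sd hS N)
    {h : (Fin n → ℝ) → ℝ} (H : Supp F h) {a : ι → ℝ} {b : κ → ℝ} (ha : ∀ i, 0 ≤ a i) (hb : ∀ j, 0 ≤ b j)
    {v : Fin n → ℝ} (hv : ∀ l, v l = ∑ i, a i * ((X i).g S l : ℝ) - ∑ j, b j * (hd k A (R j) (S l) : ℝ)) :
    h v = ∑ i, a i * (hd k A (X i).M N : ℝ) := by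
  have hdt : ∀ L : FDMod k A, dt v (fun l => (dv hS L l : ℤ)) =
      ∑ i, a i * (chi k (X i) L : ℝ) - ∑ j, b j * (hd k A (R j) L : ℝ) := by
    intro L
    have h1 : ∀ i, (chi k (X i) L : ℝ) = ∑ l, ((X i).g S l : ℝ) * (dv hS L l : ℝ) := by
      intro i
      rw [chi_eq_sum hS L (X i)]
      push_cast
      rfl
    have h2 : ∀ j, (hd k A (R j) L : ℝ) = ∑ l, (hd k A (R j) (S l) : ℝ) * (dv hS L l : ℝ) := by
      intro j
      rw [hd_eq_sum hS L (R j) (hR.projQ j)]
      push_cast
      rfl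
    simp only [h1, h2, Finset.mul_sum]
    rw [Finset.sum_comm, Finset.sum_comm (s := (Finset.univ : Finset κ)),
      ← Finset.sum_sub_distrib]
    unfold dt
    refine Finset.sum_congr rfl fun l _ => ?_
    rw [hv l, sub_mul, Finset.sum_mul, Finset.sum_mul]
    congr 1 <;> exact Finset.sum_congr rfl fun i _ => by push_cast; ring
  refine le_antisymm ?_ ?_
  · obtain ⟨d, hd', e⟩ := H.ex v
    rw [e]
    have h1 : d ∈ sd hS N := by
      rw [← hF]
      exact hd'
    obtain ⟨L, rfl⟩ := h1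
    have h2 := hdt (FDMod.of k A L)
    rw [h2]
    have h3 : ∑ i, a i * (chi k (X i) (FDMod.of k A L) : ℝ) ≤ ∑ i, a i * (hd k A (X i).M N : ℝ) := by
      refine Finset.sum_le_sum fun i _ => mul_le_mul_of_nonneg_left ?_ (ha i)
      have h3 := chi_le_hd (k := k) (N := L) (X i)
      have h4 : hd k A (X i).M L ≤ hd k A (X i).M N := hd_le_of_inj L.subtype Subtype.val_injective
      have h5 : chi k (X i) L ≤ hd k A (X i).M N := by omega
      exact_mod_cast h5
    have h4 : 0 ≤ ∑ j, b j * (hd k A (R j) (FDMod.of k A L) : ℝ) :=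
      Finset.sum_nonneg fun j _ => mul_nonneg (hb j) (by positivity)
    linarith
  · let C : Set (Pres k A) := {Y | (∃ i, Y = X i) ∨ (∃ j, Y = shift (R j) (hR.projQ j))}
    have hC : ∀ i, ∀ Y ∈ C, EZ Y (X i).M := by
      rintro i Y (⟨i', rfl⟩ | ⟨j, rfl⟩)
      · exact hR.rigid i' i
      · rw [EZ_shift_iff]
        exact hR.homzero i j
    have h3 : (fun l => (dv hS (FDMod.of k A (tzf C N)) l : ℤ)) ∈ F := by
      have : (fun l => (dv hS (FDMod.of k A (tzf C N)) l : ℤ)) ∈ (F : Set (Fin n → ℤ)) := by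
        rw [hF]
        exact ⟨tzf C N, rfl⟩
      exact this
    have h4 := H.le v _ h3
    rw [hdt (FDMod.of k A (tzf C N))] at h4
    have h5 : ∀ i, (chi k (X i) (FDMod.of k A (tzf C N)) : ℝ) = (hd k A (X i).M N : ℝ) := by
      intro i
      have e1 : EZ (X i) (tzf C N) := EZ_tzf (k := k) (Or.inl ⟨i, rfl⟩)
      have e2 : hd k A (X i).M (tzf C N) = hd k A (X i).M N :=
        hd_eq_of_HZ_quot (tzf C N) fun φ => map_quot_tzf_zero (hC i) φ
      have e3 : chi k (X i) (tzf C N) = hd k A (X i).M (tzf C N) := chi_of_EZ (k := k) (X i) e1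
      rw [e2] at e3
      exact_mod_cast e3
    have h6 : ∀ j, (hd k A (R j) (FDMod.of k A (tzf C N)) : ℝ) = 0 := by
      intro j
      have e1 : EZ (shift (R j) (hR.projQ j)) (tzf C N) := EZ_tzf (k := k) (Or.inr ⟨j, rfl⟩)
      rw [EZ_shift_iff] at e1
      exact_mod_cast e1
    simp only [h5, h6, mul_zero, Finset.sum_const_zero, sub_zero] at h4
    exact h4

/-- dimension over the field -/
theorem finrank_eq (N : FDMod k A) :
    Module.finrank k N = ∑ l, Module.finrank k (S l) * dv hS N l := by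
  have h0 : ∀ M : FDMod k A, hd k A (FDMod.of k A A) M = Module.finrank k M := by
    intro M
    exact LinearEquiv.finrank_eq (LinearMap.ringLmapEquivSelf A k M)
  rw [← h0, hd_eq_sum hS N (FDMod.of k A A) (inferInstanceAs (Module.Projective A A))]
  exact Finset.sum_congr rfl fun l _ => by rw [h0]

theorem hd_le_mul (M N : FDMod k A) : hd k A M N ≤ Module.finrank k M * Module.finrank k N := by
  unfold hd
  rw [← Module.finrank_linearMap k k M N]
  exact LinearMap.finrank_le_finrank_of_injective (f := resk k A M N) (by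
    intro φ ψ h
    ext x
    exact LinearMap.congr_fun h x)

include hS in
theorem finrank_S_pos (l : Fin n) : 0 < Module.finrank k (S l) := by
  haveI := (hS.simple l).nontrivial
  exact Module.finrank_pos

include hQ hQS in
/-- the classes of the projectives and the injectives -/
theorem dv_proj (P : FDMod k A) (hP : Module.Projective A P) (l : Fin n) :
    (dv hS P l : ℤ) = ∑ m, (hd k A P (S m) : ℤ) * dv hS (Ij hQ l) m := by
  rw [← hd_Ij hS hQ hQS P l, hd_eq_sum hS (Ij hQ l) P hP]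
  push_cast
  rfl

include hS hQ hQS in
/-- a bound for the class of a minimal presentation -/
theorem g_bound : ∃ K : ℕ, ∀ X : Pres k A, X.Minimal →
    ∑ l, |(X.g S l : ℝ)| ≤ K * (Module.finrank k X.M : ℝ) := by
  let E : ℕ := ∑ m, Module.finrank k (S m) * ∑ j, Module.finrank k (S j) * dv hS (Ij hQ m) j
  refine ⟨∑ l, (1 + E) * Module.finrank k (S l), fun X hX => ?_⟩
  have h1 : ∀ l, hd k A X.P0 (S l) ≤ Module.finrank k X.M * Module.finrank k (S l) := by
    intro l
    rw [← hd_M_simple hX (hS.simple l)]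
    exact hd_le_mul (FDMod.of k A X.M) (S l)
  have h2 : Module.finrank k X.P0 ≤ Module.finrank k X.M * E := by
    rw [finrank_eq hS X.P0, Finset.mul_sum]
    refine Finset.sum_le_sum fun m _ => ?_
    have h3 : dv hS X.P0 m ≤ Module.finrank k X.M * ∑ j, Module.finrank k (S j) * dv hS (Ij hQ m) j := by
      have h4 := dv_proj hS hQ hQS X.P0 X.proj0 m
      have h5 : dv hS X.P0 m = ∑ j, hd k A X.P0 (S j) * dv hS (Ij hQ m) j := by exact_mod_cast h4
      rw [h5, Finset.mul_sum]
      refine Finset.sum_le_sum fun j _ => ?_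
      rw [← mul_assoc]
      exact Nat.mul_le_mul_right _ (h1 j)
    calc Module.finrank k (S m) * dv hS X.P0 m
        ≤ Module.finrank k (S m) * (Module.finrank k X.M * ∑ j, Module.finrank k (S j) * dv hS (Ij hQ m) j) :=
          Nat.mul_le_mul_left _ h3
      _ = _ := by ring
  have h3 : ∀ l, hd k A X.P1 (S l) ≤ Module.finrank k X.M * E * Module.finrank k (S l) := by
    intro l
    rw [← hd_range_simple hX (hS.simple l)]
    refine (hd_le_mul (FDMod.of k A (LinearMap.range X.f)) (S l)).trans ?_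
    refine Nat.mul_le_mul_right _ (le_trans ?_ h2)
    exact Submodule.finrank_le ((LinearMap.range X.f).restrictScalars k)
  have h4 : ∀ l, |(X.g S l : ℝ)| ≤ (Module.finrank k X.M : ℝ) * ((1 + E) * Module.finrank k (S l)) := by
    intro l
    have h5 : |X.g S l| ≤ (hd k A X.P0 (S l) : ℤ) + hd k A X.P1 (S l) := by
      unfold Pres.g
      rw [abs_le]
      constructor <;> omega
    have h6 : (hd k A X.P0 (S l) : ℤ) + hd k A X.P1 (S l) ≤
        Module.finrank k X.M * ((1 + E) * Module.finrank k (S l)) := by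
      have e1 := h1 l
      have e2 := h3 l
      have e3 : hd k A X.P0 (S l) + hd k A X.P1 (S l) ≤
        Module.finrank k X.M * ((1 + E) * Module.finrank k (S l)) := by
        calc _ ≤ Module.finrank k X.M * Module.finrank k (S l) +
              Module.finrank k X.M * E * Module.finrank k (S l) := Nat.add_le_add e1 e2
          _ = _ := by ring
      exact_mod_cast e3
    exact_mod_cast h5.trans h6
  calc ∑ l, |(X.g S l : ℝ)| ≤ ∑ l, (Module.finrank k X.M : ℝ) * ((1 + E) * Module.finrank k (S l)) :=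
        Finset.sum_le_sum fun l _ => h4 l
    _ = _ := by
        push_cast
        rw [← Finset.mul_sum]
        ring

end

/-- rigid complexes -/
theorem rigid_bound [IsAlgClosed k] [Module.Finite k A] (hS : CompleteSimples S)
    (hfan : ∀ v : Fin n → ℤ, InFan S (fun l => (v l : ℝ))) :
    ∃ c : ℝ, 0 < c ∧ ∀ U : Pres k A, EZ U U.M →
      c * (Module.finrank k U.M : ℝ) ^ 2 ≤ hd k A U.M U.M := by
  classical
  choose Q hQ hQS using exists_Q hS hfan
  let F : Fin n → Finset (Fin n → ℤ) := fun l => (sd_finite hS hQ hQS (Ij hQ l)).toFinset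
  have hF : ∀ l, (F l : Set (Fin n → ℤ)) = sd hS (Ij hQ l) := fun l => Set.Finite.coe_toFinset _
  have hFne : ∀ l, (F l).Nonempty := by
    intro l
    have h1 : (sd hS (Ij hQ l)).Nonempty := ⟨_, ⟨⊥, rfl⟩⟩
    rw [← hF l] at h1
    exact h1
  choose h H using fun l => exists_supp (F l) (hFne l)
  have hFm : ∀ l, ∀ d ∈ F l, ∀ m, 0 ≤ d m ∧ d m ≤ dv hS (Ij hQ l) m := by
    intro l d hd' m
    have h1 : d ∈ sd hS (Ij hQ l) := by
      rw [← hF l]
      exact hd'
    obtain ⟨L, rfl⟩ := h1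
    refine ⟨?_, ?_⟩
    · show (0 : ℤ) ≤ (dv hS (FDMod.of k A L) m : ℤ)
      positivity
    · show (dv hS (FDMod.of k A L) m : ℤ) ≤ (dv hS (Ij hQ l) m : ℤ)
      rw [← hd_Q hS hQ hQS, ← hd_Q hS hQ hQS]
      have := hd_le_of_inj (k := k) (P := Q m) L.subtype Subtype.val_injective
      exact_mod_cast this
  -- the values at classes of rigid complexes
  have hval : ∀ (U : Pres k A), EZ U U.M → ∀ l, h l (fun l => (U.g S l : ℝ)) = dv hS (FDMod.of k A U.M) l := by
    intro U hU l
    rw [supp_rigid hS (hF l) (H l) hU]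
    have := hd_Ij hS hQ hQS (FDMod.of k A U.M) l
    exact_mod_cast this
  have hqv : ∀ (U : Pres k A), EZ U U.M → qf h (fun l => (U.g S l : ℝ)) = hd k A U.M U.M := by
    intro U hU
    have h1 : chi k U U.M = ∑ l, U.g S l * dv hS (FDMod.of k A U.M) l := chi_eq_sum hS (FDMod.of k A U.M) U
    rw [chi_of_EZ (k := k) U hU] at h1
    have h2 : ((hd k A U.M U.M : ℤ) : ℝ) = ∑ l, (U.g S l : ℝ) * (dv hS (FDMod.of k A U.M) l : ℝ) := by
      rw [h1]
      push_cast
      rfl
    have h3 : ((hd k A U.M U.M : ℕ) : ℝ) = ∑ l, (U.g S l : ℝ) * (dv hS (FDMod.of k A U.M) l : ℝ) := by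
      rw [← h2]
      push_cast
      rfl
    rw [h3]
    unfold qf
    exact Finset.sum_congr rfl fun l _ => by rw [hval U hU l]
  have hq : ∀ x : Fin n → ℤ, 0 ≤ qf h (fun l => (x l : ℝ)) ∧
      (qf h (fun l => (x l : ℝ)) = 0 → ∀ l, x l ≤ 0) := by
    intro x
    obtain ⟨U, hU, -, hUg⟩ := exists_dec hS x (hfan x)
    have e : (fun l => (x l : ℝ)) = fun l => (U.g S l : ℝ) := by
      funext l
      rw [hUg l]
    rw [e, hqv U hU]
    refine ⟨by positivity, fun h0 l => ?_⟩
    have h1 : hd k A U.M U.M = 0 := by exact_mod_cast h0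
    have h2 : ∀ φ : U.M →ₗ[A] S l, φ = 0 := by
      intro φ
      have h3 := (hd_eq_zero_iff (k := k) (N := U.M)).1 h1 LinearMap.id
      refine LinearMap.ext fun y => ?_
      have h4 : y = 0 := LinearMap.congr_fun h3 y
      rw [h4, map_zero, map_zero]
    have h3 : chi k U (S l) = - ed k U (S l) := chi_of_HZ (k := k) U h2
    have h4 : U.g S l = chi k U (S l) := rfl
    rw [← hUg l, h4, h3]
    omega
  obtain ⟨K, hK⟩ := g_bound hS hQ hQS
  let σ : Fin n → ℝ := fun l => (Module.finrank k (S l) : ℝ)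
  have hσ : ∀ l, 0 ≤ σ l := fun l => by positivity
  obtain ⟨c0, hc0, hcb⟩ := compact_bound H hq (fun l d hd' m => (hFm l d hd' m).1) σ hσ K (by positivity)
  -- an upper bound
  let C2 : ℝ := 1 + ∑ l, σ l * ∑ m, (dv hS (Ij hQ l) m : ℝ)
  have hC2 : 0 < C2 := by
    have : 0 ≤ ∑ l, σ l * ∑ m, (dv hS (Ij hQ l) m : ℝ) :=
      Finset.sum_nonneg fun l _ => mul_nonneg (hσ l) (by positivity)
    show 0 < 1 + _
    linarith
  have hup : ∀ v : Fin n → ℝ, ∑ l, σ l * h l v ≤ C2 * ∑ l, |v l| := by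
    intro v
    have hv0 : 0 ≤ ∑ l, |v l| := Finset.sum_nonneg fun l _ => abs_nonneg _
    have h1 : ∀ l, h l v ≤ (∑ m, (dv hS (Ij hQ l) m : ℝ)) * ∑ l, |v l| := by
      intro l
      obtain ⟨d, hd', e⟩ := (H l).ex v
      rw [e]
      unfold dt
      rw [Finset.mul_sum]
      refine Finset.sum_le_sum fun m _ => ?_
      have h2 := hFm l d hd' m
      have h3 : (0 : ℝ) ≤ d m := by exact_mod_cast h2.1
      have h4 : (d m : ℝ) ≤ dv hS (Ij hQ l) m := by exact_mod_cast h2.2
      have h5 : (dv hS (Ij hQ l) m : ℝ) ≤ ∑ m, (dv hS (Ij hQ l) m : ℝ) :=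
        Finset.single_le_sum (f := fun m => (dv hS (Ij hQ l) m : ℝ)) (fun _ _ => by positivity)
          (Finset.mem_univ m)
      calc v m * (d m : ℝ) ≤ |v m| * (d m : ℝ) := mul_le_mul_of_nonneg_right (le_abs_self _) h3
        _ ≤ |v m| * ∑ m, (dv hS (Ij hQ l) m : ℝ) := mul_le_mul_of_nonneg_left (h4.trans h5) (abs_nonneg _)
        _ = _ := mul_comm _ _
    calc ∑ l, σ l * h l v ≤ ∑ l, σ l * ((∑ m, (dv hS (Ij hQ l) m : ℝ)) * ∑ l, |v l|) :=
          Finset.sum_le_sum fun l _ => mul_le_mul_of_nonneg_left (h1 l) (hσ l)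
      _ = (∑ l, σ l * ∑ m, (dv hS (Ij hQ l) m : ℝ)) * ∑ l, |v l| := by
          rw [Finset.sum_mul]
          exact Finset.sum_congr rfl fun l _ => by ring
      _ ≤ C2 * ∑ l, |v l| := by
          refine mul_le_mul_of_nonneg_right ?_ hv0
          show _ ≤ 1 + _
          linarith
  refine ⟨c0 / C2 ^ 2, by positivity, fun U hU => ?_⟩
  obtain ⟨p, q, X, R, hpair, c, hc, hy⟩ := fan_integral hS (fun l => U.g S l) (hfan _)
  have hrig := hpair.rig
  have hcR : ∀ s, (0 : ℝ) ≤ c s := fun s => by exact_mod_cast hc s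
  let v : Fin n → ℝ := fun l => ∑ i, (c (Sum.inl i) : ℝ) * ((X i).g S l : ℝ)
  have hyR : ∀ l, (U.g S l : ℝ) = v l - ∑ j, (c (Sum.inr j) : ℝ) * (hd k A (R j) (S l) : ℝ) := by
    intro l
    rw [hy l, Fintype.sum_sum_type]
    push_cast
    simp only [Gv_inl, Gv_inr]
    push_cast
    simp only [mul_neg, Finset.sum_neg_distrib]
    rw [← sub_eq_add_neg]
  have hhy : ∀ l, h l (fun l => (U.g S l : ℝ)) =
      ∑ i, (c (Sum.inl i) : ℝ) * (hd k A (X i).M (Ij hQ l) : ℝ) := fun l =>
    supp_cone hS hrig (hF l) (H l) (a := fun i => (c (Sum.inl i) : ℝ)) (b := fun j => (c (Sum.inr j) : ℝ))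
      (fun i => hcR _) (fun j => hcR _) hyR
  have hhv : ∀ l, h l v = ∑ i, (c (Sum.inl i) : ℝ) * (hd k A (X i).M (Ij hQ l) : ℝ) := fun l =>
    supp_cone hS hrig (hF l) (H l) (a := fun i => (c (Sum.inl i) : ℝ)) (b := fun _ => 0)
      (fun i => hcR _) (fun j => le_rfl) (fun l => by simp [v])
  have hI : ∀ i l, (hd k A (X i).M (Ij hQ l) : ℝ) = dv hS (FDMod.of k A (X i).M) l := by
    intro i l
    have := hd_Ij hS hQ hQS (FDMod.of k A (X i).M) l
    exact_mod_cast this
  -- the dimension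
  have hδ : (Module.finrank k U.M : ℝ) = ∑ l, σ l * h l v := by
    have h1 := finrank_eq hS (FDMod.of k A U.M)
    have h2 : (Module.finrank k U.M : ℝ) = ∑ l, σ l * (dv hS (FDMod.of k A U.M) l : ℝ) := by
      have : ((Module.finrank k U.M : ℕ) : ℝ) = ((∑ l, Module.finrank k (S l) * dv hS (FDMod.of k A U.M) l : ℕ) : ℝ) := by
        exact_mod_cast h1
      rw [this]
      push_cast
      rfl
    rw [h2]
    refine Finset.sum_congr rfl fun l _ => ?_
    rw [← hval U hU l, hhy l, hhv l]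
  have hδ2 : ∑ l, σ l * h l v = ∑ i, (c (Sum.inl i) : ℝ) * (Module.finrank k (X i).M : ℝ) := by
    have h1 : ∀ i, (Module.finrank k (X i).M : ℝ) = ∑ l, σ l * (dv hS (FDMod.of k A (X i).M) l : ℝ) := by
      intro i
      have h2 := finrank_eq hS (FDMod.of k A (X i).M)
      have : ((Module.finrank k (X i).M : ℕ) : ℝ) =
          ((∑ l, Module.finrank k (S l) * dv hS (FDMod.of k A (X i).M) l : ℕ) : ℝ) := by
        exact_mod_cast h2
      rw [this]
      push_cast
      rfl
    simp only [hhv, hI, h1, Finset.mul_sum]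
    rw [Finset.sum_comm]
    exact Finset.sum_congr rfl fun i _ => Finset.sum_congr rfl fun l _ => by ring
  have hvK : ∑ l, |v l| ≤ K * ∑ l, σ l * h l v := by
    rw [hδ2]
    calc ∑ l, |v l| ≤ ∑ l, ∑ i, (c (Sum.inl i) : ℝ) * |((X i).g S l : ℝ)| := by
          refine Finset.sum_le_sum fun l _ => (Finset.abs_sum_le_sum_abs _ _).trans ?_
          exact Finset.sum_le_sum fun i _ => by rw [abs_mul, abs_of_nonneg (hcR _)]
      _ = ∑ i, (c (Sum.inl i) : ℝ) * ∑ l, |((X i).g S l : ℝ)| := by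
          rw [Finset.sum_comm]
          exact Finset.sum_congr rfl fun i _ => by rw [Finset.mul_sum]
      _ ≤ ∑ i, (c (Sum.inl i) : ℝ) * (K * (Module.finrank k (X i).M : ℝ)) :=
          Finset.sum_le_sum fun i _ => mul_le_mul_of_nonneg_left (hK (X i) (hpair.minimal i)) (hcR _)
      _ = _ := by
          rw [Finset.mul_sum]
          exact Finset.sum_congr rfl fun i _ => by ring
  have hqq : qf h v = qf h (fun l => (U.g S l : ℝ)) := by
    have h1 : qf h v - qf h (fun l => (U.g S l : ℝ)) =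
        ∑ l, (v l - (U.g S l : ℝ)) * h l v := by
      unfold qf
      rw [← Finset.sum_sub_distrib]
      refine Finset.sum_congr rfl fun l _ => ?_
      rw [hhy l, hhv l]
      ring
    have h2 : ∑ l, (v l - (U.g S l : ℝ)) * h l v = 0 := by
      have h3 : ∀ l, (v l - (U.g S l : ℝ)) * h l v = ∑ j, ∑ i, (c (Sum.inr j) : ℝ) * (c (Sum.inl i) : ℝ) *
          ((hd k A (R j) (S l) : ℝ) * (dv hS (FDMod.of k A (X i).M) l : ℝ)) := by
        intro l
        have e : v l - (U.g S l : ℝ) = ∑ j, (c (Sum.inr j) : ℝ) * (hd k A (R j) (S l) : ℝ) := by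
          rw [hyR l]
          ring
        rw [e, hhv l, Finset.sum_mul_sum]
        exact Finset.sum_congr rfl fun j _ => Finset.sum_congr rfl fun i _ => by rw [hI]; ring
      rw [Finset.sum_congr rfl fun l _ => h3 l, Finset.sum_comm]
      refine Finset.sum_eq_zero fun j _ => ?_
      rw [Finset.sum_comm]
      refine Finset.sum_eq_zero fun i _ => ?_
      rw [← Finset.mul_sum]
      have h4 := hd_eq_sum hS (FDMod.of k A (X i).M) (R j) (hrig.projQ j)
      have h5 : hd k A (R j) (FDMod.of k A (X i).M) = 0 := hrig.homzero i j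
      rw [h5] at h4
      have h6 := congrArg (fun z : ℕ => (z : ℝ)) h4
      push_cast at h6
      rw [← h6, mul_zero]
    linarith
  have hfin := hcb v hvK
  rw [hqq, hqv U hU] at hfin
  have h7 : (Module.finrank k U.M : ℝ) ≤ C2 * ∑ l, |v l| := by
    rw [hδ]
    exact hup v
  have h8 : (Module.finrank k U.M : ℝ) ^ 2 ≤ (C2 * ∑ l, |v l|) ^ 2 :=
    pow_le_pow_left₀ (by positivity) h7 2
  calc c0 / C2 ^ 2 * (Module.finrank k U.M : ℝ) ^ 2 ≤ c0 / C2 ^ 2 * (C2 * ∑ l, |v l|) ^ 2 :=
        mul_le_mul_of_nonneg_left h8 (by positivity)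
    _ = c0 * (∑ l, |v l|) ^ 2 := by
        field_simp
    _ ≤ _ := hfin

theorem chi_congr_g (hS : CompleteSimples S) {X Y : Pres k A} (h : ∀ l, Y.g S l = X.g S l) (N : FDMod k A) :
    chi k Y N = chi k X N := by
  rw [chi_eq_sum hS N Y, chi_eq_sum hS N X]
  exact Finset.sum_congr rfl fun l _ => by rw [h l]

/-- A rigid complex has the smallest spaces of homomorphisms from its cokernel. -/
theorem hd_le_of_g (hS : CompleteSimples S) {X U : Pres k A} (hU : EZ U U.M) (h : ∀ l, U.g S l = X.g S l)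
    (N : FDMod k A) : hd k A U.M N ≤ hd k A X.M N := by
  have h1 := hd_eq_chi_tz (k := k) (N := N) hU
  have h2 : chi k U (tz U N) = chi k X (tz U N) := chi_congr_g hS h (FDMod.of k A (tz U N))
  have h3 := chi_le_hd (k := k) (N := tz U N) X
  have h4 : hd k A X.M (tz U N) ≤ hd k A X.M N := hd_le_of_inj (tz U N).subtype Subtype.val_injective
  omega

/-- complexes whose cokernel has the smallest dimension in the class -/
theorem of_min [IsAlgClosed k] [Module.Finite k A] (hS : CompleteSimples S)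
    (hfan : ∀ v : Fin n → ℤ, InFan S (fun l => (v l : ℝ))) {c : ℝ}
    (hc : ∀ U : Pres k A, EZ U U.M → c * (Module.finrank k U.M : ℝ) ^ 2 ≤ hd k A U.M U.M)
    (X : Pres k A) (hmin : ∀ Y : Pres k A, (∀ l, Y.g S l = X.g S l) →
      Module.finrank k X.M ≤ Module.finrank k Y.M) :
    c * (Module.finrank k X.M : ℝ) ^ 2 + ed k X X.M ≤ hd k A X.M X.M := by
  classical
  choose Q hQ hQS using exists_Q hS hfan
  obtain ⟨U, hU, -, hUg⟩ := exists_dec hS (fun l => X.g S l) (hfan _)
  have hle : ∀ l, dv hS (FDMod.of k A U.M) l ≤ dv hS (FDMod.of k A X.M) l := by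
    intro l
    rw [← hd_Ij hS hQ hQS, ← hd_Ij hS hQ hQS]
    exact hd_le_of_g hS hU hUg (Ij hQ l)
  have h1 := finrank_eq hS (FDMod.of k A X.M)
  have h2 := finrank_eq hS (FDMod.of k A U.M)
  have h3 : Module.finrank k X.M ≤ Module.finrank k U.M := hmin U hUg
  have h4 : ∑ l, Module.finrank k (S l) * dv hS (FDMod.of k A U.M) l =
      ∑ l, Module.finrank k (S l) * dv hS (FDMod.of k A X.M) l := by
    refine le_antisymm (Finset.sum_le_sum fun l _ => Nat.mul_le_mul_left _ (hle l)) ?_
    rw [← h1, ← h2]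
    exact h3
  have h5 : ∀ l, dv hS (FDMod.of k A U.M) l = dv hS (FDMod.of k A X.M) l := by
    intro l
    have h6 := (Finset.sum_eq_sum_iff_of_le fun l _ => Nat.mul_le_mul_left _ (hle l)).1 h4 l
      (Finset.mem_univ l)
    exact Nat.eq_of_mul_eq_mul_left (finrank_S_pos hS l) h6
  have h6 : Module.finrank k X.M = Module.finrank k U.M := by
    have e1 : Module.finrank k X.M = ∑ l, Module.finrank k (S l) * dv hS (FDMod.of k A X.M) l := h1
    have e2 : Module.finrank k U.M = ∑ l, Module.finrank k (S l) * dv hS (FDMod.of k A U.M) l := h2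
    rw [e1, e2, h4]
  have h7 : chi k X X.M = chi k U U.M := by
    have e1 : chi k X X.M = ∑ l, X.g S l * dv hS (FDMod.of k A X.M) l := chi_eq_sum hS (FDMod.of k A X.M) X
    have e2 : chi k U U.M = ∑ l, U.g S l * dv hS (FDMod.of k A U.M) l := chi_eq_sum hS (FDMod.of k A U.M) U
    rw [e1, e2]
    exact Finset.sum_congr rfl fun l _ => by rw [hUg l, h5 l]
  rw [chi_of_EZ (k := k) U hU, chi_eq] at h7
  have h8 := hc U hU
  rw [← h6] at h8
  have h9 : (hd k A U.M U.M : ℝ) = (hd k A X.M X.M : ℝ) - ed k X X.M := by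
    have : ((hd k A U.M U.M : ℤ) : ℝ) = (((hd k A X.M X.M : ℤ) - ed k X X.M : ℤ) : ℝ) := by rw [h7]
    push_cast at this
    exact this
  rw [h9] at h8
  linarith

/-- complexes given by injective maps -/
theorem min_of_inj [IsAlgClosed k] [Module.Finite k A] (hS : CompleteSimples S)
    (hfan : ∀ v : Fin n → ℤ, InFan S (fun l => (v l : ℝ))) (X : Pres k A) (hX : Function.Injective X.f)
    (Y : Pres k A) (hY : ∀ l, Y.g S l = X.g S l) : Module.finrank k X.M ≤ Module.finrank k Y.M := by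
  classical
  choose Q hQ hQS using exists_Q hS hfan
  have hcl : ∀ (Z : Pres k A) (l : Fin n), (dv hS Z.P0 l : ℤ) - dv hS Z.P1 l =
      ∑ m, Z.g S m * dv hS (Ij hQ l) m := by
    intro Z l
    rw [dv_proj hS hQ hQS Z.P0 Z.proj0 l, dv_proj hS hQ hQS Z.P1 Z.proj1 l, ← Finset.sum_sub_distrib]
    refine Finset.sum_congr rfl fun m _ => ?_
    unfold Pres.g
    ring
  have hex : ∀ (Z : Pres k A) (l : Fin n), dv hS Z.P0 l =
      dv hS (FDMod.of k A (LinearMap.range Z.f)) l + dv hS (FDMod.of k A Z.M) l := by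
    intro Z l
    rw [← hd_Q hS hQ hQS, ← hd_Q hS hQ hQS, ← hd_Q hS hQ hQS]
    haveI := hQ l
    exact hd_add (P := Q l) (LinearMap.range Z.f)
  have hXr : ∀ l, dv hS (FDMod.of k A (LinearMap.range X.f)) l = dv hS X.P1 l := by
    intro l
    rw [← hd_Q hS hQ hQS, ← hd_Q hS hQ hQS]
    exact hd_congr_right (LinearEquiv.ofInjective X.f hX).symm
  have hYr : ∀ l, dv hS (FDMod.of k A (LinearMap.range Y.f)) l ≤ dv hS Y.P1 l := by
    intro l
    rw [← hd_Q hS hQ hQS, ← hd_Q hS hQ hQS]
    haveI := hQ l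
    have h1 := hd_add (k := k) (P := Q l) (LinearMap.ker Y.f)
    have h2 : hd k A (Q l) (Y.P1 ⧸ LinearMap.ker Y.f) = hd k A (Q l) (LinearMap.range Y.f) :=
      hd_congr_right Y.f.quotKerEquivRange
    show hd k A (Q l) (LinearMap.range Y.f) ≤ _
    omega
  have hle : ∀ l, dv hS (FDMod.of k A X.M) l ≤ dv hS (FDMod.of k A Y.M) l := by
    intro l
    have e1 := hcl X l
    have e2 := hcl Y l
    have e3 : ∑ m, Y.g S m * dv hS (Ij hQ l) m = ∑ m, X.g S m * dv hS (Ij hQ l) m :=
      Finset.sum_congr rfl fun m _ => by rw [hY m]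
    have e4 := hex X l
    have e5 := hex Y l
    have e6 := hXr l
    have e7 := hYr l
    omega
  have h1 := finrank_eq hS (FDMod.of k A X.M)
  have h2 := finrank_eq hS (FDMod.of k A Y.M)
  have e1 : Module.finrank k X.M = ∑ l, Module.finrank k (S l) * dv hS (FDMod.of k A X.M) l := h1
  have e2 : Module.finrank k Y.M = ∑ l, Module.finrank k (S l) * dv hS (FDMod.of k A Y.M) l := h2
  rw [e1, e2]
  exact Finset.sum_le_sum fun l _ => Nat.mul_le_mul_left _ (hle l)

end Pool.Agent.Helper52.DE
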